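import Pool.Agent.Helper18.PB2.Goals

/-!
Packet POL of project PB2 (MP_b9cb57_an, for helper18).
-/

set_option autoImplicit false

open MeasureTheory Measure

namespace Pool.Agent.Helper90.PB2

open Pool.Agent.Helper18.PB2

/-- `P_x = ∑ x_i X^(i+1)` -/
noncomputable def Px {n : ℕ} (x : Eu n) : Polynomial ℝ :=
  ∑ i : Fin n, Polynomial.C (x i) * Polynomial.X ^ ((i : ℕ) + 1)

theorem inner_gam {n : ℕ} (t : ℝ) (x : Eu n) : inner ℝ (gam n t) x = (Px x).eval t := by
  unfold gam Px
  rw [PiLp.inner_apply, Polynomial.eval_finsetSum]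
  refine Finset.sum_congr rfl fun i _ => ?_
  rw [Polynomial.eval_mul, Polynomial.eval_C, Polynomial.eval_pow, Polynomial.eval_X]
  simp

theorem Px_ne_zero {n : ℕ} {x : Eu n} (hx : x ≠ 0) : Px x ≠ 0 := by
  intro h
  apply hx
  ext j
  have h1 := congrArg (fun p => Polynomial.coeff p ((j : ℕ) + 1)) h
  simp only [Px, Polynomial.finsetSum_coeff, Polynomial.coeff_C_mul_X_pow,
    Polynomial.coeff_zero] at h1
  rw [Finset.sum_eq_single j] at h1
  · simpa using h1
  · intro i _ hij
    rw [if_neg]
    intro h2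
    exact hij (Fin.ext (by omega))
  · intro h2
    exact absurd (Finset.mem_univ j) h2

theorem Px_eval_zero {n : ℕ} (x : Eu n) : (Px x).eval 0 = 0 := by
  unfold Px
  rw [Polynomial.eval_finsetSum]
  refine Finset.sum_eq_zero fun i _ => ?_
  simp

theorem inner_tw {n : ℕ} (η t : ℝ) (c x : Eu n) :
    inner ℝ (tw n η t c) x = inner ℝ c x + η * inner ℝ (gam n t) c * inner ℝ (gam n t) x := by
  unfold tw
  rw [inner_add_left, real_inner_smul_left]

theorem gam_contDiff (n : ℕ) : ContDiff ℝ 1 (fun t => gam n t) := by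
  rw [contDiff_euclidean]
  intro i
  exact contDiff_id.pow ((i : ℕ) + 1)

theorem pol : HPol := by
  intro n η c hη hc
  refine ⟨fun x hx => ?_, fun t => ?_, ?_, fun t G hG => ?_⟩
  · set P : Polynomial ℝ := Polynomial.C (inner ℝ c x) + Polynomial.C η * Px c * Px x with hP
    have hev : ∀ t, P.eval t = inner ℝ (tw n η t c) x := by
      intro t
      rw [inner_tw, inner_gam, inner_gam, hP]
      simp
    have hne : P ≠ 0 := by
      intro h0
      have h1 : P.eval 0 = 0 := by rw [h0, Polynomial.eval_zero]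
      have h2 : inner ℝ c x = 0 := by
        rw [hP] at h1
        simpa [Px_eval_zero] using h1
      rw [hP, h2, Polynomial.C_0, zero_add] at h0
      rcases mul_eq_zero.1 h0 with h3 | h3
      · rcases mul_eq_zero.1 h3 with h4 | h4
        · exact hη.ne' (Polynomial.C_eq_zero.1 h4)
        · exact Px_ne_zero hc h4
      · exact Px_ne_zero hx h3
    have hfin := Polynomial.finite_setOf_isRoot hne
    refine hfin.subset fun t ht => ?_
    change P.eval t = 0
    rw [hev t]
    exact ht
  · intro h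
    have h1 : inner ℝ (tw n η t c) c = 0 := by rw [h, inner_zero_left]
    rw [inner_tw, real_inner_self_eq_norm_sq] at h1
    have h2 : 0 < ‖c‖ ^ 2 := by
      have := norm_pos_iff.2 hc
      positivity
    have h3 : 0 ≤ η * inner ℝ (gam n t) c * inner ℝ (gam n t) c := by
      rw [mul_assoc]
      exact mul_nonneg hη.le (mul_self_nonneg _)
    linarith
  · have h1 : ContDiff ℝ 1 (fun t => (inner ℝ (gam n t) c : ℝ)) :=
      (gam_contDiff n).inner ℝ contDiff_const
    exact contDiff_const.add ((contDiff_const.mul h1).smul (gam_contDiff n))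
  · have h1 : tw n η t c - c = (η * inner ℝ (gam n t) c) • gam n t := by
      unfold tw
      rw [add_sub_cancel_left]
    have h2 : |inner ℝ (gam n t) c| ≤ ‖gam n t‖ * ‖c‖ := abs_real_inner_le_norm _ _
    have hg := norm_nonneg (gam n t)
    have hcn := norm_nonneg c
    rw [h1, norm_smul, Real.norm_eq_abs, abs_mul, abs_of_pos hη]
    calc η * |inner ℝ (gam n t) c| * ‖gam n t‖ ≤ η * (‖gam n t‖ * ‖c‖) * ‖gam n t‖ := by
          gcongr
      _ = η * ‖gam n t‖ ^ 2 * ‖c‖ := by ring
      _ ≤ η * G ^ 2 * ‖c‖ := by gcongr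

end Pool.Agent.Helper90.PB2
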